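import Mathlib

/-!
# Cycle spectrum of the associahedron flip graph (MP_fb8c36_co)

Definitions, elementary facts, and the exact statements of the pieces.
-/

set_option autoImplicit false

namespace Pool.Agent.R68.Asc

/-! ### The problem -/

/-- `(a, b)` with `a < b` is a diagonal of the convex polygon with vertices `0, 1, ..., N - 1`. -/
def IsDiag (N : ℕ) (e : ℕ × ℕ) : Prop := e.1 + 1 < e.2 ∧ e.2 < N ∧ ¬ (e.1 = 0 ∧ e.2 + 1 = N)

/-- the segments `e` and `f` cross -/
def Cross (e f : ℕ × ℕ) : Prop :=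
  (e.1 < f.1 ∧ f.1 < e.2 ∧ e.2 < f.2) ∨ (f.1 < e.1 ∧ e.1 < f.2 ∧ f.2 < e.2)

/-- `D` is a triangulation: a maximal set of pairwise non-crossing diagonals. -/
def IsTri (N : ℕ) (D : Finset (ℕ × ℕ)) : Prop :=
  (∀ e ∈ D, IsDiag N e) ∧ (∀ e ∈ D, ∀ f ∈ D, ¬ Cross e f) ∧
    ∀ e, IsDiag N e → (∀ f ∈ D, ¬ Cross e f) → e ∈ D

/-- the triangulations of the convex polygon with `N` vertices -/
def Tri (N : ℕ) : Type := {D : Finset (ℕ × ℕ) // IsTri N D}

/-- the flip graph: a diagonal `e` is removed and another diagonal `f` is inserted -/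
def flipGraph (N : ℕ) : SimpleGraph (Tri N) where
  Adj D D' := ∃ e f : ℕ × ℕ, e ∈ D.1 ∧ f ∉ D.1 ∧ D'.1 = insert f (D.1.erase e)
  symm := ⟨by
    rintro D D' ⟨e, f, he, hf, h⟩
    have hef : e ≠ f := fun h' => hf (h' ▸ he)
    refine ⟨f, e, ?_, ?_, ?_⟩
    · rw [h]; exact Finset.mem_insert_self _ _
    · rw [h, Finset.mem_insert, Finset.mem_erase]
      rintro (h1 | h1)
      · exact hef h1
      · exact h1.1 rfl
    · rw [h, Finset.erase_insert (fun h1 => hf (Finset.mem_of_mem_erase h1)),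
        Finset.insert_erase he]⟩
  loopless := ⟨by
    rintro D ⟨e, f, he, hf, h⟩
    apply hf
    rw [h]
    exact Finset.mem_insert_self _ _⟩

/-- the cycle spectrum of a graph: the lengths of its cycles -/
def spectrum {V : Type} (G : SimpleGraph V) : Set ℕ :=
  {L | ∃ (v : V) (c : G.Walk v v), c.IsCycle ∧ c.length = L}

/-- The final statement. -/
def S_final : Prop := Filter.Tendsto
  (fun N : ℕ => ((spectrum (flipGraph N)).ncard : ℝ) / (Nat.card (Tri N) : ℝ)) Filter.atTop (nhds 1)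

/-! ### Binary trees -/

/-- binary trees -/
inductive BT : Type
  | nil : BT
  | node : BT → BT → BT
  deriving DecidableEq

/-- number of inner nodes -/
def lev : BT → ℕ
  | .nil => 0
  | .node l r => lev l + lev r + 1

/-- rotations -/
inductive Rot : BT → BT → Prop
  | root (a b c : BT) : Rot (.node (.node a b) c) (.node a (.node b c))
  | left {a a' : BT} (c : BT) : Rot a a' → Rot (.node a c) (.node a' c)
  | right (a : BT) {c c' : BT} : Rot c c' → Rot (.node a c) (.node a c')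

/-- adjacent trees: they differ by one rotation -/
def R (x y : BT) : Prop := Rot x y ∨ Rot y x

/-- number of the children (length of the right spine plus one) -/
def d : BT → ℕ
  | .nil => 1
  | .node _ r => d r + 1

/-- the children `ch t 0, ..., ch t (d t - 1)` of `t` -/
def ch : BT → ℕ → BT
  | t, 0 => .node t .nil
  | .nil, _ + 1 => .nil
  | .node l r, i + 1 => .node l (ch r i)

theorem R_symm {x y : BT} (h : R x y) : R y x := Or.symm h

theorem R_left {a a' : BT} (c : BT) (h : R a a') : R (.node a c) (.node a' c) :=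
  h.imp (Rot.left c) (Rot.left c)

theorem R_right (a : BT) {c c' : BT} (h : R c c') : R (.node a c) (.node a c') :=
  h.imp (Rot.right a) (Rot.right a)

theorem ch_zero (t : BT) : ch t 0 = .node t .nil := by
  cases t <;> rfl

theorem ch_succ (l r : BT) (i : ℕ) : ch (.node l r) (i + 1) = .node l (ch r i) := rfl

theorem d_node (l r : BT) : d (.node l r) = d r + 1 := rfl

theorem d_pos (t : BT) : 1 ≤ d t := by
  cases t
  · exact le_rfl
  · rw [d_node]; omega

theorem two_le_d {t : BT} (h : 1 ≤ lev t) : 2 ≤ d t := by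
  cases t with
  | nil => exact absurd h (by simp [lev])
  | node l r => rw [d_node]; have := d_pos r; omega

theorem d_le (t : BT) : d t ≤ lev t + 1 := by
  induction t with
  | nil => exact le_rfl
  | node l r _ ih => rw [d_node, lev]; omega

theorem lev_ch (t : BT) : ∀ i, i < d t → lev (ch t i) = lev t + 1 := by
  induction t with
  | nil =>
    intro i hi
    have : i = 0 := by simp only [d] at hi; omega
    subst this
    rfl
  | node l r _ ih =>
    intro i hi
    cases i with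
    | zero => rw [ch_zero]; simp [lev]
    | succ i =>
      rw [d_node] at hi
      rw [ch_succ, lev, ih i (by omega), lev]
      omega

theorem d_ch (t : BT) : ∀ i, i < d t → d (ch t i) = i + 2 := by
  induction t with
  | nil =>
    intro i hi
    have : i = 0 := by simp only [d] at hi; omega
    subst this
    rfl
  | node l r _ ih =>
    intro i hi
    cases i with
    | zero => rw [ch_zero]; rfl
    | succ i =>
      rw [d_node] at hi
      rw [ch_succ, d_node, ih i (by omega)]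

theorem ch_inj_aux (i : ℕ) : ∀ s t : BT, i < d s → i < d t → ch s i = ch t i → s = t := by
  induction i with
  | zero =>
    intro s t _ _ h
    rw [ch_zero, ch_zero] at h
    injection h
  | succ i ih =>
    intro s t hs ht h
    cases s with
    | nil => simp only [d] at hs; omega
    | node l r =>
      cases t with
      | nil => simp only [d] at ht; omega
      | node l' r' =>
        rw [d_node] at hs ht
        rw [ch_succ, ch_succ] at h
        injection h with h1 h2
        rw [h1, ih r r' (by omega) (by omega) h2]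

theorem ch_inj {s t : BT} {i j : ℕ} (hs : i < d s) (ht : j < d t) (h : ch s i = ch t j) :
    s = t ∧ i = j := by
  have h1 := d_ch s i hs
  rw [h, d_ch t j ht] at h1
  have h2 : i = j := by omega
  subst h2
  exact ⟨ch_inj_aux i s t hs ht h, rfl⟩

theorem ch_surj (y : BT) (hy : 1 ≤ lev y) : ∃ x i, i < d x ∧ ch x i = y := by
  induction y with
  | nil => simp [lev] at hy
  | node l r _ ih =>
    cases r with
    | nil => exact ⟨l, 0, d_pos l, ch_zero l⟩
    | node l' r' =>
      obtain ⟨x, i, hi, hx⟩ := ih (by rw [lev]; omega)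
      exact ⟨.node l x, i + 1, by rw [d_node]; omega, by rw [ch_succ, hx]⟩

theorem R_ch_succ (t : BT) : ∀ i, i + 1 < d t → R (ch t i) (ch t (i + 1)) := by
  induction t with
  | nil => intro i hi; simp only [d] at hi; omega
  | node l r _ ih =>
    intro i hi
    rw [d_node] at hi
    cases i with
    | zero =>
      rw [ch_zero, ch_succ, ch_zero]
      exact Or.inl (Rot.root l r .nil)
    | succ i =>
      rw [ch_succ, ch_succ]
      exact R_right l (ih i (by omega))

theorem Rot_lev {x y : BT} (h : Rot x y) : lev x = lev y := by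
  induction h with
  | root a b c => simp only [lev]; omega
  | left c _ ih => simp only [lev]; omega
  | right a _ ih => simp only [lev]; omega

theorem R_lev {x y : BT} (h : R x y) : lev x = lev y := by
  rcases h with h | h
  · exact Rot_lev h
  · exact (Rot_lev h).symm

/-- the fibre of `x` is longer than the fibre of `y`, and the rungs of the ladder between them -/
def Lad1 (x y : BT) : Prop := d x = d y + 1 ∧ ∃ j, 1 ≤ j ∧ j < d y ∧
  (∀ i, i < j → R (ch x i) (ch y i)) ∧ ∀ i, j ≤ i → i < d y → R (ch x (i + 1)) (ch y i)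

/-- the fibres have the same length -/
def Lad0 (x y : BT) : Prop := d x = d y ∧ ∀ i, i < d x → R (ch x i) (ch y i)

theorem R_ch_zero {x y : BT} (h : R x y) : R (ch x 0) (ch y 0) := by
  rw [ch_zero, ch_zero]
  exact R_left _ h

theorem lad_rot {x y : BT} (h : Rot x y) : Lad0 x y ∨ Lad1 x y ∨ Lad1 y x := by
  induction h with
  | root a b c =>
    right; right
    refine ⟨by simp only [d_node], 1, le_rfl, by rw [d_node]; have := d_pos c; omega, ?_, ?_⟩
    · intro i hi
      have : i = 0 := by omega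
      subst this
      exact R_ch_zero (Or.inr (Rot.root a b c))
    · intro i h1 h2
      obtain ⟨k, rfl⟩ : ∃ k, i = k + 1 := ⟨i - 1, by omega⟩
      rw [ch_succ, ch_succ, ch_succ]
      exact Or.inr (Rot.root a b _)
  | left c h ih =>
    left
    refine ⟨rfl, fun i hi => ?_⟩
    cases i with
    | zero => exact R_ch_zero (Or.inl (Rot.left c h))
    | succ i =>
      rw [ch_succ, ch_succ]
      exact Or.inl (Rot.left _ h)
  | @right a c c' h ih =>
    rcases ih with ⟨h1, h2⟩ | ⟨h1, j, hj1, hj2, h2, h3⟩ | ⟨h1, j, hj1, hj2, h2, h3⟩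
    · left
      refine ⟨by rw [d_node, d_node, h1], fun i hi => ?_⟩
      cases i with
      | zero => exact R_ch_zero (Or.inl (Rot.right a h))
      | succ i =>
        rw [d_node] at hi
        rw [ch_succ, ch_succ]
        exact R_right a (h2 i (by omega))
    · right; left
      refine ⟨by rw [d_node, d_node, h1], j + 1, by omega, by rw [d_node]; omega, ?_, ?_⟩
      · intro i hi
        cases i with
        | zero => exact R_ch_zero (Or.inl (Rot.right a h))
        | succ i =>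
          rw [ch_succ, ch_succ]
          exact R_right a (h2 i (by omega))
      · intro i hi1 hi2
        obtain ⟨k, rfl⟩ : ∃ k, i = k + 1 := ⟨i - 1, by omega⟩
        rw [d_node] at hi2
        rw [ch_succ, ch_succ]
        exact R_right a (h3 k (by omega) (by omega))
    · right; right
      refine ⟨by rw [d_node, d_node, h1], j + 1, by omega, by rw [d_node]; omega, ?_, ?_⟩
      · intro i hi
        cases i with
        | zero => exact R_ch_zero (Or.inr (Rot.right a h))
        | succ i =>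
          rw [ch_succ, ch_succ]
          exact R_right a (h2 i (by omega))
      · intro i hi1 hi2
        obtain ⟨k, rfl⟩ : ∃ k, i = k + 1 := ⟨i - 1, by omega⟩
        rw [d_node] at hi2
        rw [ch_succ, ch_succ]
        exact R_right a (h3 k (by omega) (by omega))

theorem lad {x y : BT} (h : R x y) : Lad0 x y ∨ Lad1 x y ∨ Lad1 y x := by
  rcases h with h | h
  · exact lad_rot h
  · rcases lad_rot h with ⟨h1, h2⟩ | h1 | h1
    · exact Or.inl ⟨h1.symm, fun i hi => R_symm (h2 i (by omega))⟩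
    · exact Or.inr (Or.inr h1)
    · exact Or.inr (Or.inl h1)

/-! ### Cyclic lists -/

/-- `l` is a cyclic sequence of distinct trees, consecutive ones (also the last and the first) being
adjacent -/
def CC (l : List BT) : Prop :=
  l.Nodup ∧ l.IsChain R ∧ ∀ a ∈ l.getLast?, ∀ b ∈ l.head?, R a b

/-- the set of the trees with `n` inner nodes -/
def Lv (n : ℕ) : Set BT := {x | lev x = n}

/-- `(a, b)` is a rung between the fibres of `x` and `y`: `ch x (a - 1)` and `ch y (b - 1)` are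
adjacent -/
def Rung (x y : BT) (a b : ℕ) : Prop :=
  1 ≤ a ∧ a ≤ d x ∧ 1 ≤ b ∧ b ≤ d y ∧ R (ch x (a - 1)) (ch y (b - 1))

/-- the lengths of the paths from `ch x 0` to `ch y 0` through one rung -/
def SL (x y : BT) : Set ℕ := {t | ∃ a b, Rung x y a b ∧ t = a + b}

/-- the sums of such lengths for a list of pairs -/
def Ach (P : List (BT × BT)) : Set ℕ :=
  {t | ∃ s : List ℕ, List.Forall₂ (fun p ℓ => ℓ ∈ SL p.1 p.2) P s ∧ s.sum = t}

/-- the list `x₁, y₁, x₂, y₂, ...` -/
def flat (P : List (BT × BT)) : List BT := P.flatMap fun p => [p.1, p.2]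

/-- total number of children of the pairs -/
def tot (P : List (BT × BT)) : ℕ := (P.map fun p => d p.1 + d p.2).sum

/-- `L` is the length of a cyclic list of trees with `n` inner nodes -/
def Len (n L : ℕ) : Prop := 3 ≤ L ∧ ∃ l : List BT, CC l ∧ (∀ x ∈ l, lev x = n) ∧ l.length = L

/-! ### The pieces -/

/-- edges of the triangulation of the polygon `a, a + 1, ..., a + lev t + 1` given by `t`, together
with the sides and the base -/
def ed : BT → ℕ → Finset (ℕ × ℕ)
  | .nil, a => {(a, a + 1)}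
  | .node l r, a => insert (a, a + (lev l + lev r + 1) + 1) (ed l a ∪ ed r (a + lev l + 1))

/-- a maximal non-crossing set of segments with ends in `[a, b]` (it contains the sides and the
base) -/
def Full (a b : ℕ) (E : Finset (ℕ × ℕ)) : Prop :=
  (∀ e ∈ E, a ≤ e.1 ∧ e.1 < e.2 ∧ e.2 ≤ b) ∧ (∀ e ∈ E, ∀ f ∈ E, ¬ Cross e f) ∧
    ∀ e : ℕ × ℕ, a ≤ e.1 → e.1 < e.2 → e.2 ≤ b → (∀ f ∈ E, ¬ Cross e f) → e ∈ E

/-- ASC-FULL -/
def S_full : Prop := (∀ (t : BT) (a : ℕ), Full a (a + lev t + 1) (ed t a)) ∧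
  (∀ (n a : ℕ) (E : Finset (ℕ × ℕ)), Full a (a + n + 1) E → ∃ t, lev t = n ∧ E = ed t a) ∧
  ∀ (s t : BT) (a : ℕ), lev s = lev t → ed s a = ed t a → s = t

/-- ASC-ROT: rotations are flips -/
def S_rot : Prop := ∀ (x y : BT) (a : ℕ), Rot x y → ∃ e f : ℕ × ℕ,
  e ∈ ed x a ∧ f ∉ ed x a ∧ ed y a = insert f ((ed x a).erase e) ∧
  e.1 + 1 < e.2 ∧ f.1 + 1 < f.2 ∧ a ≤ e.1 ∧ a ≤ f.1 ∧ e.2 ≤ a + lev x + 1 ∧ f.2 ≤ a + lev x + 1 ∧
  e ≠ (a, a + lev x + 1) ∧ f ≠ (a, a + lev x + 1)

/-- ASC-BRIDGE: from trees to triangulations -/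
def S_bridge : Prop := S_full → S_rot → ∀ n : ℕ, 1 ≤ n →
  Nat.card (Tri (n + 2)) = (Lv n).ncard ∧ (Lv n).Finite ∧
  ∀ L, Len n L → L ∈ spectrum (flipGraph (n + 2))

/-- ASC-GLUE: the cycles through the fibres -/
def S_glue : Prop := ∀ (n : ℕ), 1 ≤ n → ∀ (P : List (BT × BT)), P ≠ [] → CC (flat P) →
  (∀ x ∈ flat P, lev x = n) → ∀ L ∈ Ach P, 3 ≤ L → Len (n + 1) L

/-- ASC-ARI: the lengths for a list of pairs -/
def S_ari : Prop := ∀ (n : ℕ) (p q₁ q₂ q₃ : BT × BT) (P P' : List (BT × BT)),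
  List.Perm P (p :: q₁ :: q₂ :: q₃ :: P') →
  (∀ z ∈ P, R z.1 z.2 ∧ lev z.1 = n ∧ lev z.2 = n) → d p.1 ≠ d p.2 →
  (3 ≤ d q₁.1 ∧ 3 ≤ d q₁.2) → (3 ≤ d q₂.1 ∧ 3 ≤ d q₂.2) → (3 ≤ d q₃.1 ∧ 3 ≤ d q₃.2) →
  ∀ L : ℕ, 2 * P.length + 8 * (n + 1) ≤ L → L + 8 * (n + 1) ≤ tot P → L ∈ Ach P

/-- a Hamilton cycle of level `n` with consecutive trees `A`, `B` of degrees `4` and `3` -/
def HamP (n : ℕ) : Prop := ∃ (A B : BT) (t : List BT), CC (A :: B :: t) ∧
  (∀ x, x ∈ A :: B :: t ↔ lev x = n) ∧ ((d A = 4 ∧ d B = 3) ∨ (d A = 3 ∧ d B = 4))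

/-- ASC-HAM3: the base -/
def S_ham3 : Prop := HamP 3

/-- ASC-HAME: induction step, even number of trees -/
def S_hamE : Prop := ∀ n, 3 ≤ n → ∀ (A B : BT) (t : List BT), CC (A :: B :: t) →
  (∀ x, x ∈ A :: B :: t ↔ lev x = n) → ((d A = 4 ∧ d B = 3) ∨ (d A = 3 ∧ d B = 4)) →
  Even t.length → HamP (n + 1)

/-- ASC-HAMO: induction step, odd number of trees -/
def S_hamO : Prop := ∀ n, 3 ≤ n → ∀ (A B : BT) (t : List BT), CC (A :: B :: t) →
  (∀ x, x ∈ A :: B :: t ↔ lev x = n) → ((d A = 4 ∧ d B = 3) ∨ (d A = 3 ∧ d B = 4)) →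
  ¬ Even t.length → HamP (n + 1)

/-- ASC-EVEN: even cycles give intervals of lengths in the next level -/
def S_even : Prop := S_glue → S_ari → ∀ (n : ℕ), 3 ≤ n → ∀ (l : List BT), CC l →
  (∀ x ∈ l, lev x = n) → Even l.length → (∃ x ∈ l, d x ≤ 2) →
  12 ≤ (l.filter fun x => 4 ≤ d x).length →
  ∀ L : ℕ, l.length + 8 * (n + 1) ≤ L → L + 8 * (n + 1) ≤ (l.map d).sum → Len (n + 1) L

/-- ASC-CNT: counting facts -/
def S_cnt : Prop :=
  (∀ n, (Lv n).Finite) ∧ (∀ n, 1 ≤ n → 2 * (Lv n).ncard ≤ (Lv (n + 1)).ncard) ∧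
  (∀ n, 1 ≤ n → (Lv (n + 1)).ncard ≤ (n + 1) * (Lv n).ncard) ∧
  (∀ n, 1 ≤ n → Even (Lv (2 * n)).ncard) ∧
  (∀ n, 1 ≤ n → ∀ l : List BT, l.Nodup → (∀ x, x ∈ l ↔ lev x = n) →
    l.length = (Lv n).ncard ∧ (l.map d).sum = (Lv (n + 1)).ncard) ∧
  (∀ n, 2 ≤ n → (Lv n).ncard ≤ {x | lev x = n + 2 ∧ 4 ≤ d x}.ncard) ∧
  (∀ n, 2 ≤ n → (Lv n).ncard ≤ {x | lev x = n + 1 ∧ d x ≤ 2}.ncard) ∧
  ∀ n L, Len n L → Len (n + 1) L

/-- ASC-NEAR: all lengths between the number of trees of level `n` and of level `n + 1`, with small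
exceptions -/
def S_near : Prop := S_cnt → S_even → S_glue → S_ari → (∀ n, 3 ≤ n → HamP n) →
  ∃ (K n₀ : ℕ), ∀ n, n₀ ≤ n → ∀ L, (Lv n).ncard + K * (n + 1) ^ 2 ≤ L →
    L + K * (n + 1) ^ 2 ≤ (Lv (n + 1)).ncard → Len (n + 1) L

/-- ASC-LIM: the limit -/
def S_lim : Prop := S_cnt →
  (∃ (K n₀ : ℕ), ∀ n, n₀ ≤ n → ∀ L, (Lv n).ncard + K * (n + 1) ^ 2 ≤ L →
    L + K * (n + 1) ^ 2 ≤ (Lv (n + 1)).ncard → Len (n + 1) L) →
  (∀ n : ℕ, 1 ≤ n → Nat.card (Tri (n + 2)) = (Lv n).ncard ∧ (Lv n).Finite ∧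
    ∀ L, Len n L → L ∈ spectrum (flipGraph (n + 2))) → S_final

end Pool.Agent.R68.Asc
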