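import Pool.Agent.R651.Asc.Defs

/-!
# MP_fb8c36_co: binary trees code the triangulations, rotations are flips
-/

set_option autoImplicit false

namespace Pool.Agent.R68.AscP

open Pool.Agent.R651.Asc

/-- the pairs `e` and `f` cross -/
def Cr (e f : ℕ × ℕ) : Prop :=
  (e.1 < f.1 ∧ f.1 < e.2 ∧ e.2 < f.2) ∨ (f.1 < e.1 ∧ e.1 < f.2 ∧ f.2 < e.2)

/-- maximal non-crossing sets of pairs at distance at least two in `[i, k]` -/
structure Full (i k : ℕ) (S : Finset (ℕ × ℕ)) : Prop where
  rg : ∀ e ∈ S, i ≤ e.1 ∧ e.1 + 2 ≤ e.2 ∧ e.2 ≤ k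
  nc : ∀ e ∈ S, ∀ f ∈ S, ¬ Cr e f
  mx : ∀ e : ℕ × ℕ, i ≤ e.1 → e.1 + 2 ≤ e.2 → e.2 ≤ k → (∀ f ∈ S, ¬ Cr e f) → e ∈ S

theorem mem_node {i : ℕ} {l r : BT} {e : ℕ × ℕ} : e ∈ E i (.node l r) ↔
    e = (i, i + l.size + r.size + 2) ∨ e ∈ E i l ∨ e ∈ E (i + l.size + 1) r := by
  simp only [E, Finset.mem_insert, Finset.mem_union]

theorem base_mem {i : ℕ} {t : BT} (h : 1 ≤ t.size) : (i, i + t.size + 1) ∈ E i t := by
  cases t with
  | leaf => simp [BT.size] at h
  | node l r =>
    rw [mem_node]
    left
    simp only [BT.size]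
    congr 1
    omega

theorem full (t : BT) : ∀ i, Full i (i + t.size + 1) (E i t) := by
  induction t with
  | leaf =>
    intro i
    refine ⟨?_, ?_, ?_⟩
    · intro e he; simp [E] at he
    · intro e he; simp [E] at he
    · intro e h1 h2 h3 _
      simp only [BT.size] at h3
      omega
  | node l r ihl ihr =>
    intro i
    have hl := ihl i
    have hr := ihr (i + l.size + 1)
    have hk : i + (BT.node l r).size + 1 = i + l.size + r.size + 2 := by
      simp only [BT.size]; omega
    rw [hk]
    refine ⟨?_, ?_, ?_⟩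
    · intro e he
      rw [mem_node] at he
      rcases he with rfl | he | he
      · simp only; omega
      · have := hl.rg e he; omega
      · have := hr.rg e he; omega
    · intro e he f hf
      rw [mem_node] at he hf
      rcases he with rfl | he | he
      · rcases hf with rfl | hf | hf
        · unfold Cr; simp only; omega
        · have := hl.rg f hf; unfold Cr; simp only; omega
        · have := hr.rg f hf; unfold Cr; simp only; omega
      · have h1 := hl.rg e he
        rcases hf with rfl | hf | hf
        · unfold Cr; simp only; omega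
        · exact hl.nc e he f hf
        · have := hr.rg f hf; unfold Cr; omega
      · have h1 := hr.rg e he
        rcases hf with rfl | hf | hf
        · unfold Cr; simp only; omega
        · have := hl.rg f hf; unfold Cr; omega
        · exact hr.nc e he f hf
    · intro e h1 h2 h3 h4
      rw [mem_node]
      by_cases c1 : e.2 ≤ i + l.size + 1
      · right; left
        exact hl.mx e h1 h2 c1 fun f hf => h4 f (mem_node.2 (Or.inr (Or.inl hf)))
      by_cases c2 : i + l.size + 1 ≤ e.1
      · right; right
        exact hr.mx e c2 h2 (by omega) fun f hf => h4 f (mem_node.2 (Or.inr (Or.inr hf)))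
      left
      have e1 : e.1 = i := by
        by_contra hne
        have hsz : 1 ≤ l.size := by omega
        refine h4 _ (mem_node.2 (Or.inr (Or.inl (base_mem (i := i) hsz)))) ?_
        unfold Cr
        simp only
        omega
      have e2 : e.2 = i + l.size + r.size + 2 := by
        by_contra hne
        have hsz : 1 ≤ r.size := by omega
        refine h4 _ (mem_node.2 (Or.inr (Or.inr (base_mem (i := i + l.size + 1) hsz)))) ?_
        unfold Cr
        simp only
        omega
      exact Prod.ext e1 e2

theorem exists_tree (n : ℕ) : ∀ (i : ℕ) (S : Finset (ℕ × ℕ)), Full i (i + n + 1) S →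
    ∃ t : BT, t.size = n ∧ S = E i t := by
  induction n using Nat.strong_induction_on with
  | _ n ih =>
  intro i S hS
  rcases Nat.eq_zero_or_pos n with rfl | hn
  · refine ⟨.leaf, rfl, ?_⟩
    ext e
    simp only [E, Finset.notMem_empty, iff_false]
    intro he
    have := hS.rg e he
    omega
  obtain ⟨k, hk⟩ : ∃ k, k = i + n + 1 := ⟨_, rfl⟩
  rw [← hk] at hS
  have hbase : (i, k) ∈ S := by
    refine hS.mx (i, k) le_rfl (by simp only; omega) le_rfl fun f hf => ?_
    have := hS.rg f hf
    unfold Cr
    simp only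
    omega
  -- the apex
  have hne : ((Finset.range k).filter fun j => i < j ∧ ((i, j) ∈ S ∨ j = i + 1)).Nonempty :=
    ⟨i + 1, by
      rw [Finset.mem_filter, Finset.mem_range]
      exact ⟨by omega, by omega, Or.inr rfl⟩⟩
  obtain ⟨j, hj, hjmax⟩ := Finset.exists_max_image _ (fun j => j) hne
  rw [Finset.mem_filter, Finset.mem_range] at hj
  obtain ⟨hjk, hij, hj2⟩ := hj
  have hmax : ∀ y, j < y → y < k → (i, y) ∉ S := by
    intro y h1 h2 h3
    have := hjmax y (by
      rw [Finset.mem_filter, Finset.mem_range]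
      exact ⟨h2, by omega, Or.inl h3⟩)
    omega
  -- no member contains the apex strictly, except the base
  have hsep : ∀ e ∈ S, e.1 < j → j < e.2 → e = (i, k) := by
    intro e he h1 h2
    have hr := hS.rg e he
    have e1 : e.1 = i := by
      by_contra hne1
      rcases hj2 with h3 | h3
      · refine hS.nc e he _ h3 ?_
        unfold Cr
        simp only
        omega
      · omega
    have e2 : e.2 = k := by
      by_contra hne2
      refine hmax e.2 h2 (by omega) ?_
      rw [← e1]
      exact he
    exact Prod.ext e1 e2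
  have hFl : Full i j (S.filter fun e => e.2 ≤ j) := by
    refine ⟨?_, ?_, ?_⟩
    · intro e he
      rw [Finset.mem_filter] at he
      have := hS.rg e he.1
      exact ⟨this.1, this.2.1, he.2⟩
    · intro e he f hf
      exact hS.nc e (Finset.mem_filter.1 he).1 f (Finset.mem_filter.1 hf).1
    · intro e h1 h2 h3 h4
      rw [Finset.mem_filter]
      refine ⟨hS.mx e h1 h2 (by omega) fun f hf => ?_, h3⟩
      by_cases c1 : f.2 ≤ j
      · exact h4 f (Finset.mem_filter.2 ⟨hf, c1⟩)
      by_cases c2 : f.1 < j
      · rw [hsep f hf c2 (by omega)]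
        unfold Cr
        simp only
        omega
      · unfold Cr
        omega
  have hFr : Full j k (S.filter fun e => j ≤ e.1) := by
    refine ⟨?_, ?_, ?_⟩
    · intro e he
      rw [Finset.mem_filter] at he
      have := hS.rg e he.1
      exact ⟨he.2, this.2.1, this.2.2⟩
    · intro e he f hf
      exact hS.nc e (Finset.mem_filter.1 he).1 f (Finset.mem_filter.1 hf).1
    · intro e h1 h2 h3 h4
      rw [Finset.mem_filter]
      refine ⟨hS.mx e (by omega) h2 h3 fun f hf => ?_, h1⟩
      by_cases c1 : j ≤ f.1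
      · exact h4 f (Finset.mem_filter.2 ⟨hf, c1⟩)
      by_cases c2 : j < f.2
      · rw [hsep f hf (by omega) c2]
        unfold Cr
        simp only
        omega
      · unfold Cr
        omega
  obtain ⟨n1, hn1⟩ : ∃ n1, j = i + n1 + 1 := ⟨j - i - 1, by omega⟩
  obtain ⟨n2, hn2⟩ : ∃ n2, k = j + n2 + 1 := ⟨k - j - 1, by omega⟩
  have hFl' : Full i (i + n1 + 1) (S.filter fun e => e.2 ≤ j) := hn1 ▸ hFl
  have hFr' : Full j (j + n2 + 1) (S.filter fun e => j ≤ e.1) := hn2 ▸ hFr
  obtain ⟨l, hl1, hl2⟩ := ih n1 (by omega) i _ hFl'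
  obtain ⟨r, hr1, hr2⟩ := ih n2 (by omega) j _ hFr'
  refine ⟨.node l r, by simp only [BT.size]; omega, ?_⟩
  ext e
  have hj' : i + l.size + 1 = j := by omega
  have hk' : i + l.size + r.size + 2 = k := by omega
  rw [mem_node, hj', hk', ← hl2, ← hr2, Finset.mem_filter, Finset.mem_filter]
  constructor
  · intro he
    by_cases c1 : e.2 ≤ j
    · exact Or.inr (Or.inl ⟨he, c1⟩)
    by_cases c2 : j ≤ e.1
    · exact Or.inr (Or.inr ⟨he, c2⟩)
    · exact Or.inl (hsep e he (by omega) (by omega))
  · rintro (rfl | h | h)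
    · exact hbase
    · exact h.1
    · exact h.1

theorem filter_l (i : ℕ) (l r : BT) :
    (E i (.node l r)).filter (fun e => e.2 ≤ i + l.size + 1) = E i l := by
  ext e
  rw [Finset.mem_filter, mem_node]
  constructor
  · rintro ⟨rfl | h | h, h2⟩
    · simp only at h2; omega
    · exact h
    · have := (full r (i + l.size + 1)).rg e h; omega
  · intro h
    exact ⟨Or.inr (Or.inl h), ((full l i).rg e h).2.2⟩

theorem filter_r (i : ℕ) (l r : BT) :
    (E i (.node l r)).filter (fun e => i + l.size + 1 ≤ e.1) = E (i + l.size + 1) r := by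
  ext e
  rw [Finset.mem_filter, mem_node]
  constructor
  · rintro ⟨rfl | h | h, h2⟩
    · simp only at h2; omega
    · have := (full l i).rg e h; omega
    · exact h
  · intro h
    exact ⟨Or.inr (Or.inr h), ((full r _).rg e h).1⟩

theorem size_lt_false {i : ℕ} {l r l' r' : BT} (hs : l.size + r.size = l'.size + r'.size)
    (h : E i (.node l r) = E i (.node l' r')) (hlt : l.size < l'.size) : False := by
  have h1 : (i, i + l'.size + 1) ∈ E i (.node l' r') :=
    mem_node.2 (Or.inr (Or.inl (base_mem (by omega))))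
  rw [← h] at h1
  have h2 : (i + l.size + 1, i + l.size + 1 + r.size + 1) ∈ E i (.node l r) :=
    mem_node.2 (Or.inr (Or.inr (base_mem (by omega))))
  refine (full (.node l r) i).nc _ h1 _ h2 ?_
  unfold Cr
  simp only
  omega

theorem inj (s : BT) : ∀ (t : BT) (i : ℕ), s.size = t.size → E i s = E i t → s = t := by
  induction s with
  | leaf =>
    intro t i h _
    cases t with
    | leaf => rfl
    | node l r => simp only [BT.size] at h; omega
  | node l r ihl ihr =>
    intro t i h hE
    cases t with
    | leaf => simp only [BT.size] at h; omega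
    | node l' r' =>
      simp only [BT.size] at h
      have h1 : l.size = l'.size := by
        rcases lt_trichotomy l.size l'.size with hlt | heq | hlt
        · exact (size_lt_false (by omega) hE hlt).elim
        · exact heq
        · exact (size_lt_false (by omega) hE.symm hlt).elim
      have h2 : E i l = E i l' := by
        rw [← filter_l i l r, ← filter_l i l' r', hE, h1]
      have h3 : E (i + l.size + 1) r = E (i + l.size + 1) r' := by
        have := filter_r i l' r'
        rw [← h1] at this
        rw [← filter_r i l r, hE, this]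
      rw [ihl l' i h1 h2, ihr r' _ (by omega) h3]

theorem rot_size {s t : BT} (h : Rot s t) : s.size = t.size := by
  induction h with
  | root a b c => simp only [BT.size]; omega
  | left c _ ih => simp only [BT.size]; omega
  | right a _ ih => simp only [BT.size]; omega

theorem rot_swap {s t : BT} (h : Rot s t) : ∀ i : ℕ, ∃ e f : ℕ × ℕ, e ∈ E i s ∧ f ∉ E i s ∧
    (∀ x, x ∈ E i t ↔ x = f ∨ (x ≠ e ∧ x ∈ E i s)) ∧ e ≠ (i, i + s.size + 1) ∧
    f ≠ (i, i + s.size + 1) := by
  induction h with
  | root a b c =>
    intro i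
    have ha := full a i
    have hb := full b (i + a.size + 1)
    have hc := full c (i + a.size + b.size + 2)
    have hs : ∀ x, x ∈ E i (.node (.node a b) c) ↔ x = (i, i + a.size + b.size + c.size + 3) ∨
        x = (i, i + a.size + b.size + 2) ∨ x ∈ E i a ∨ x ∈ E (i + a.size + 1) b ∨
        x ∈ E (i + a.size + b.size + 2) c := by
      intro x
      rw [mem_node, mem_node]
      have e1 : i + (BT.node a b).size + c.size + 2 = i + a.size + b.size + c.size + 3 := by
        simp only [BT.size]; omega
      have e2 : i + (BT.node a b).size + 1 = i + a.size + b.size + 2 := by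
        simp only [BT.size]; omega
      rw [e1, e2]
      tauto
    have ht : ∀ x, x ∈ E i (.node a (.node b c)) ↔ x = (i, i + a.size + b.size + c.size + 3) ∨
        x ∈ E i a ∨ x = (i + a.size + 1, i + a.size + b.size + c.size + 3) ∨
        x ∈ E (i + a.size + 1) b ∨ x ∈ E (i + a.size + b.size + 2) c := by
      intro x
      rw [mem_node, mem_node]
      have e1 : i + a.size + (BT.node b c).size + 2 = i + a.size + b.size + c.size + 3 := by
        simp only [BT.size]; omega
      have e2 : i + a.size + 1 + b.size + c.size + 2 = i + a.size + b.size + c.size + 3 := by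
        omega
      have e3 : i + a.size + 1 + b.size + 1 = i + a.size + b.size + 2 := by omega
      rw [e1, e2, e3]
    have hsz : i + (BT.node (.node a b) c).size + 1 = i + a.size + b.size + c.size + 3 := by
      simp only [BT.size]; omega
    refine ⟨(i, i + a.size + b.size + 2),
      (i + a.size + 1, i + a.size + b.size + c.size + 3), ?_, ?_, ?_, ?_, ?_⟩
    · rw [hs]; exact Or.inr (Or.inl rfl)
    · rw [hs]
      rintro (h | h | h | h | h)
      · have := congrArg Prod.fst h; simp only at this; omega
      · have := congrArg Prod.fst h; simp only at this; omega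
      · have := ha.rg _ h; simp only at this; omega
      · have := hb.rg _ h; simp only at this; omega
      · have := hc.rg _ h; simp only at this; omega
    · intro x
      rw [ht, hs]
      constructor
      · rintro (h | h | h | h | h)
        · refine Or.inr ⟨?_, Or.inl h⟩
          rintro rfl
          have := congrArg Prod.snd h; simp only at this; omega
        · refine Or.inr ⟨?_, Or.inr (Or.inr (Or.inl h))⟩
          rintro rfl
          have := ha.rg _ h; simp only at this; omega
        · exact Or.inl h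
        · refine Or.inr ⟨?_, Or.inr (Or.inr (Or.inr (Or.inl h)))⟩
          rintro rfl
          have := hb.rg _ h; simp only at this; omega
        · refine Or.inr ⟨?_, Or.inr (Or.inr (Or.inr (Or.inr h)))⟩
          rintro rfl
          have := hc.rg _ h; simp only at this; omega
      · rintro (h | ⟨h0, h | h | h | h | h⟩)
        · exact Or.inr (Or.inr (Or.inl h))
        · exact Or.inl h
        · exact absurd h h0
        · exact Or.inr (Or.inl h)
        · exact Or.inr (Or.inr (Or.inr (Or.inl h)))
        · exact Or.inr (Or.inr (Or.inr (Or.inr h)))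
    · rw [hsz]
      intro h
      have := congrArg Prod.snd h; simp only at this; omega
    · rw [hsz]
      intro h
      have := congrArg Prod.fst h; simp only at this; omega
  | @left l l' r h ih =>
    intro i
    obtain ⟨e, f, he, hf, hx, he0, hf0⟩ := ih i
    have hsz := rot_size h
    have hl := full l i
    have hl' := full l' i
    have hr := full r (i + l.size + 1)
    have hfl : f ∈ E i l' := (hx f).2 (Or.inl rfl)
    have hek := hl.rg e he
    have hfk := hl'.rg f hfl
    refine ⟨e, f, mem_node.2 (Or.inr (Or.inl he)), ?_, ?_, ?_, ?_⟩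
    · rw [mem_node]
      rintro (h1 | h1 | h1)
      · have := congrArg Prod.snd h1; simp only at this; omega
      · exact hf h1
      · have := hr.rg f h1; omega
    · intro x
      rw [mem_node, mem_node, ← hsz, hx]
      constructor
      · rintro (h1 | (h1 | ⟨h1, h2⟩) | h1)
        · refine Or.inr ⟨?_, Or.inl h1⟩
          rintro rfl
          have := congrArg Prod.snd h1; simp only at this; omega
        · exact Or.inl h1
        · exact Or.inr ⟨h1, Or.inr (Or.inl h2)⟩
        · refine Or.inr ⟨?_, Or.inr (Or.inr h1)⟩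
          rintro rfl
          have := hr.rg _ h1; omega
      · rintro (h1 | ⟨h0, h1 | h1 | h1⟩)
        · exact Or.inr (Or.inl (Or.inl h1))
        · exact Or.inl h1
        · exact Or.inr (Or.inl (Or.inr ⟨h0, h1⟩))
        · exact Or.inr (Or.inr h1)
    · intro h1
      have := congrArg Prod.snd h1
      simp only [BT.size] at this
      omega
    · intro h1
      have := congrArg Prod.snd h1
      simp only [BT.size] at this
      omega
  | @right l r r' h ih =>
    intro i
    obtain ⟨e, f, he, hf, hx, he0, hf0⟩ := ih (i + l.size + 1)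
    have hsz := rot_size h
    have hl := full l i
    have hr := full r (i + l.size + 1)
    have hr' := full r' (i + l.size + 1)
    have hfr : f ∈ E (i + l.size + 1) r' := (hx f).2 (Or.inl rfl)
    have hek := hr.rg e he
    have hfk := hr'.rg f hfr
    refine ⟨e, f, mem_node.2 (Or.inr (Or.inr he)), ?_, ?_, ?_, ?_⟩
    · rw [mem_node]
      rintro (h1 | h1 | h1)
      · have := congrArg Prod.fst h1; simp only at this; omega
      · have := hl.rg f h1; omega
      · exact hf h1
    · intro x
      rw [mem_node, mem_node, ← hsz, hx]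
      constructor
      · rintro (h1 | h1 | h1 | ⟨h1, h2⟩)
        · refine Or.inr ⟨?_, Or.inl h1⟩
          rintro rfl
          have := congrArg Prod.fst h1; simp only at this; omega
        · refine Or.inr ⟨?_, Or.inr (Or.inl h1)⟩
          rintro rfl
          have := hl.rg _ h1; omega
        · exact Or.inl h1
        · exact Or.inr ⟨h1, Or.inr (Or.inr h2)⟩
      · rintro (h1 | ⟨h0, h1 | h1 | h1⟩)
        · exact Or.inr (Or.inr (Or.inl h1))
        · exact Or.inl h1
        · exact Or.inr (Or.inl h1)
        · exact Or.inr (Or.inr (Or.inr ⟨h0, h1⟩))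
    · intro h1
      have := congrArg Prod.fst h1
      simp only at this
      omega
    · intro h1
      have := congrArg Prod.fst h1
      simp only at this
      omega

/-- the pair of natural numbers -/
def vl {N : ℕ} (z : Fin N × Fin N) : ℕ × ℕ := ((z.1 : ℕ), (z.2 : ℕ))

theorem vl_inj {N : ℕ} {z w : Fin N × Fin N} (h : vl z = vl w) : z = w :=
  Prod.ext (Fin.ext (congrArg Prod.fst h)) (Fin.ext (congrArg Prod.snd h))

theorem crosses_iff {N : ℕ} (z w : Fin N × Fin N) : Crosses z w ↔ Cr (vl z) (vl w) := Iff.rfl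

/-- the set of diagonals of a tree -/
def DT (n : ℕ) (t : BT) : Finset (Fin (n + 2) × Fin (n + 2)) :=
  Finset.univ.filter fun z => vl z ∈ E 0 t ∧ vl z ≠ (0, n + 1)

theorem mem_DT {n : ℕ} {t : BT} {z : Fin (n + 2) × Fin (n + 2)} :
    z ∈ DT n t ↔ vl z ∈ E 0 t ∧ vl z ≠ (0, n + 1) := by
  simp [DT]

theorem diag_iff {n : ℕ} {z : Fin (n + 2) × Fin (n + 2)} :
    IsDiagonal (n + 2) z ↔ (vl z).1 + 2 ≤ (vl z).2 ∧ vl z ≠ (0, n + 1) := by
  unfold IsDiagonal vl
  simp only [ne_eq, Prod.mk.injEq]
  constructor
  · rintro ⟨h1, h2⟩; exact ⟨h1, by omega⟩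
  · rintro ⟨h1, h2⟩; exact ⟨h1, by omega⟩

theorem full0 {n : ℕ} {t : BT} (ht : t.size = n) : Full 0 (n + 1) (E 0 t) := by
  have := full t 0
  rw [ht, Nat.zero_add] at this
  exact this

theorem base_nc {n : ℕ} {e : ℕ × ℕ} (h : e.2 ≤ n + 1) : ¬ Cr e (0, n + 1) := by
  unfold Cr
  simp only
  omega

theorem isTri {n : ℕ} {t : BT} (ht : t.size = n) : IsTriangulation (n + 2) (DT n t) := by
  have hF := full0 ht
  refine ⟨⟨?_, ?_⟩, ?_⟩
  · intro z hz
    rw [mem_DT] at hz
    exact diag_iff.2 ⟨(hF.rg _ hz.1).2.1, hz.2⟩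
  · intro z hz w hw
    rw [crosses_iff]
    exact hF.nc _ (mem_DT.1 hz).1 _ (mem_DT.1 hw).1
  · rintro T' ⟨h1, h2⟩ hsub
    refine (Finset.Subset.antisymm hsub fun z hz => ?_).symm
    have hz1 := diag_iff.1 (h1 z hz)
    have hz2 : (vl z).2 ≤ n + 1 := by
      have := z.2.2
      unfold vl
      simp only
      omega
    rw [mem_DT]
    refine ⟨hF.mx _ (Nat.zero_le _) hz1.1 hz2 fun f hf => ?_, hz1.2⟩
    by_cases hf0 : f = (0, n + 1)
    · rw [hf0]
      exact base_nc hz2
    · have hfr := hF.rg f hf
      obtain ⟨w, hw⟩ : ∃ w : Fin (n + 2) × Fin (n + 2), vl w = f :=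
        ⟨(⟨f.1, by omega⟩, ⟨f.2, by omega⟩), rfl⟩
      rw [← hw]
      have hw' : w ∈ DT n t := mem_DT.2 ⟨by rw [hw]; exact hf, by rw [hw]; exact hf0⟩
      exact h2 z hz w (hsub hw')

theorem base_in {n : ℕ} (hn : 1 ≤ n) {t : BT} (ht : t.size = n) : (0, n + 1) ∈ E 0 t := by
  have := base_mem (i := 0) (t := t) (by omega)
  rw [ht, Nat.zero_add] at this
  exact this

theorem DT_inj {n : ℕ} (hn : 1 ≤ n) {s t : BT} (hs : s.size = n) (ht : t.size = n)
    (h : DT n s = DT n t) : s = t := by
  have key : ∀ s t : BT, s.size = n → t.size = n → DT n s = DT n t → E 0 s ⊆ E 0 t := by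
    intro s t hs ht h f hf
    by_cases hf0 : f = (0, n + 1)
    · rw [hf0]
      exact base_in hn ht
    · have hfr := (full0 hs).rg f hf
      obtain ⟨w, hw⟩ : ∃ w : Fin (n + 2) × Fin (n + 2), vl w = f :=
        ⟨(⟨f.1, by omega⟩, ⟨f.2, by omega⟩), rfl⟩
      have hw' : w ∈ DT n s := mem_DT.2 ⟨by rw [hw]; exact hf, by rw [hw]; exact hf0⟩
      rw [h, mem_DT, hw] at hw'
      exact hw'.1
  exact inj s t 0 (by omega) (Finset.Subset.antisymm (key s t hs ht h) (key t s ht hs h.symm))

theorem DT_surj {n : ℕ} (hn : 1 ≤ n) (T : Finset (Fin (n + 2) × Fin (n + 2)))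
    (hT : IsTriangulation (n + 2) T) : ∃ t : BT, t.size = n ∧ DT n t = T := by
  obtain ⟨⟨h1, h2⟩, h3⟩ := hT
  obtain ⟨S, hSdef⟩ : ∃ S : Finset (ℕ × ℕ), S = insert (0, n + 1) (T.image vl) := ⟨_, rfl⟩
  have hmem : ∀ e, e ∈ S ↔ e = (0, n + 1) ∨ ∃ z ∈ T, vl z = e := by
    intro e
    rw [hSdef, Finset.mem_insert, Finset.mem_image]
  have hlt : ∀ z : Fin (n + 2) × Fin (n + 2), (vl z).2 ≤ n + 1 := by
    intro z
    have := z.2.2
    unfold vl
    simp only
    omega
  have hF : Full 0 (0 + n + 1) S := by
    rw [Nat.zero_add]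
    refine ⟨?_, ?_, ?_⟩
    · intro e he
      rcases (hmem e).1 he with rfl | ⟨z, hz, rfl⟩
      · simp only; omega
      · exact ⟨Nat.zero_le _, (diag_iff.1 (h1 z hz)).1, hlt z⟩
    · intro e he f hf
      rcases (hmem e).1 he with rfl | ⟨z, hz, rfl⟩
      · rcases (hmem f).1 hf with rfl | ⟨w, hw, rfl⟩
        · unfold Cr; simp only; omega
        · have := hlt w
          unfold Cr; simp only; omega
      · rcases (hmem f).1 hf with rfl | ⟨w, hw, rfl⟩
        · exact base_nc (hlt z)
        · exact h2 z hz w hw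
    · intro e he1 he2 he3 he4
      rw [hmem]
      by_cases he0 : e = (0, n + 1)
      · exact Or.inl he0
      right
      obtain ⟨w, hw⟩ : ∃ w : Fin (n + 2) × Fin (n + 2), vl w = e :=
        ⟨(⟨e.1, by omega⟩, ⟨e.2, by omega⟩), rfl⟩
      refine ⟨w, ?_, hw⟩
      have hnc : NonCrossing (n + 2) (insert w T) := by
        refine ⟨?_, ?_⟩
        · intro z hz
          rw [Finset.mem_insert] at hz
          rcases hz with rfl | hz
          · rw [diag_iff, hw]
            exact ⟨he2, he0⟩
          · exact h1 z hz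
        · intro z hz z' hz'
          rw [Finset.mem_insert] at hz hz'
          rcases hz with rfl | hz
          · rcases hz' with rfl | hz'
            · rw [crosses_iff]; unfold Cr; omega
            · rw [crosses_iff, hw]
              exact he4 _ ((hmem _).2 (Or.inr ⟨z', hz', rfl⟩))
          · rcases hz' with rfl | hz'
            · rw [crosses_iff, hw]
              have := he4 _ ((hmem _).2 (Or.inr ⟨z, hz, rfl⟩))
              unfold Cr at this ⊢
              omega
            · exact h2 z hz z' hz'
      have := h3 _ hnc (Finset.subset_insert w T)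
      rw [← this]
      exact Finset.mem_insert_self w T
  obtain ⟨t, ht1, ht2⟩ := exists_tree n 0 S hF
  refine ⟨t, ht1, ?_⟩
  ext z
  rw [mem_DT, ← ht2, hmem]
  constructor
  · rintro ⟨h | ⟨w, hw, hw2⟩, h0⟩
    · exact absurd h h0
    · rw [← vl_inj hw2]; exact hw
  · intro hz
    exact ⟨Or.inr ⟨z, hz, rfl⟩, (diag_iff.1 (h1 z hz)).2⟩

/-- **Polygon lemma.** -/
theorem polygon : PolygonLemma := by
  intro n hn
  refine ⟨fun t => ⟨DT n t.1, isTri t.2⟩, ⟨?_, ?_⟩, ?_⟩
  · intro s t h
    exact Subtype.ext (DT_inj hn s.2 t.2 (congrArg Subtype.val h))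
  · rintro ⟨T, hT⟩
    obtain ⟨t, ht1, ht2⟩ := DT_surj hn T hT
    exact ⟨⟨t, ht1⟩, Subtype.ext ht2⟩
  · rintro ⟨s, hs⟩ ⟨t, ht⟩ h
    obtain ⟨e, f, he, hf, hx, he0, hf0⟩ := rot_swap h 0
    simp only at h he hf hx he0 hf0
    rw [hs, Nat.zero_add] at he0 hf0
    have hfE : f ∈ E 0 t := (hx f).2 (Or.inl rfl)
    have her := (full0 hs).rg e he
    have hfr := (full0 ht).rg f hfE
    obtain ⟨w, hw⟩ : ∃ w : Fin (n + 2) × Fin (n + 2), vl w = e :=
      ⟨(⟨e.1, by omega⟩, ⟨e.2, by omega⟩), rfl⟩
    obtain ⟨w', hw'⟩ : ∃ w' : Fin (n + 2) × Fin (n + 2), vl w' = f :=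
      ⟨(⟨f.1, by omega⟩, ⟨f.2, by omega⟩), rfl⟩
    have hwD : w ∈ DT n s := mem_DT.2 ⟨by rw [hw]; exact he, by rw [hw]; exact he0⟩
    have hwD' : w' ∈ DT n t := mem_DT.2 ⟨by rw [hw']; exact hfE, by rw [hw']; exact hf0⟩
    have hwn : w' ∉ DT n s := by
      rw [mem_DT, hw']
      exact fun h => hf h.1
    refine ⟨?_, w, hwD, w', hwD', ?_⟩
    · intro h1
      have := congrArg Subtype.val h1
      simp only at this
      rw [this] at hwn
      exact hwn hwD'
    · ext z
      simp only [Finset.mem_erase, mem_DT]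
      rw [hx]
      constructor
      · rintro ⟨h1, h2, h3⟩
        have hz1 : vl z ≠ e := fun h => h1 (vl_inj (h.trans hw.symm))
        have hz2 : z ≠ w' := by
          rintro rfl
          rw [hw'] at h2
          exact hf h2
        exact ⟨hz2, Or.inr ⟨hz1, h2⟩, h3⟩
      · rintro ⟨h1, h2 | ⟨h2, h4⟩, h3⟩
        · exact absurd (vl_inj (h2.trans hw'.symm)) h1
        · refine ⟨?_, h4, h3⟩
          rintro rfl
          exact h2 hw

end Pool.Agent.R68.AscP
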